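import Mathlib

/-!
# Martin's axiom for `σ`-centred partial orders

`MASigmaCentered` is Martin's axiom for `σ`-centred partial orders and fewer than `𝔠` dense sets. By
a theorem of Bell it is equivalent to `𝔭 = 𝔠`. In a preorder `q ≤ p` means that `q` is an extension
of `p`.
-/

set_option autoImplicit false

open Set Cardinal

namespace Pool.Agent.Y302.PS

/-- `P` is a union of countably many centred sets: any finitely many elements with the same number
have a common extension. -/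
def SigmaCentered (P : Type) [Preorder P] : Prop :=
  ∃ c : P → ℕ, ∀ (n : ℕ) (s : Finset P), (∀ p ∈ s, c p = n) → ∃ q, ∀ p ∈ s, q ≤ p

/-- every element has an extension in `D` -/
def DenseBelow {P : Type} [Preorder P] (D : Set P) : Prop := ∀ p, ∃ q ≤ p, q ∈ D

/-- `G` is a filter -/
structure IsFilter {P : Type} [Preorder P] (G : Set P) : Prop where
  nonempty : G.Nonempty
  up : ∀ p ∈ G, ∀ q, p ≤ q → q ∈ G
  directed : ∀ p ∈ G, ∀ q ∈ G, ∃ r ∈ G, r ≤ p ∧ r ≤ q

/-- Martin's axiom for `σ`-centred partial orders and fewer than `𝔠` dense sets -/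
def MASigmaCentered : Prop :=
  ∀ (P : Type) [Preorder P] [Nonempty P], SigmaCentered P → ∀ 𝒟 : Set (Set P), #𝒟 < 𝔠 →
    (∀ D ∈ 𝒟, DenseBelow D) → ∃ G : Set P, IsFilter G ∧ ∀ D ∈ 𝒟, (G ∩ D).Nonempty

/-- CH implies Martin's axiom for all partial orders, in particular this one. -/
theorem ma_of_ch (hCH : (ℵ₁ : Cardinal.{0}) = 𝔠) : MASigmaCentered := by
  intro P _ hP _ 𝒟 h𝒟 hD
  have hc : 𝒟.Countable := by
    rw [← hCH, ← Cardinal.succ_aleph0, Order.lt_succ_iff] at h𝒟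
    exact Cardinal.le_aleph0_iff_set_countable.1 h𝒟
  obtain ⟨p0⟩ := hP
  rcases 𝒟.eq_empty_or_nonempty with h0 | h0
  · refine ⟨{q | p0 ≤ q}, ⟨⟨p0, le_rfl⟩, fun p hp q hq => le_trans hp hq,
      fun p hp q hq => ⟨p0, le_rfl, hp, hq⟩⟩, fun D hD' => ?_⟩
    rw [h0] at hD'
    exact absurd hD' (Set.notMem_empty D)
  obtain ⟨f, hf⟩ := hc.exists_eq_range h0
  have hfD : ∀ n, DenseBelow (f n) := fun n => hD _ (hf ▸ Set.mem_range_self n)
  choose nx hnx1 hnx2 using hfD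
  let s : ℕ → P := fun n => Nat.rec p0 (fun n p => nx n p) n
  have hs : ∀ n, s (n + 1) = nx n (s n) := fun n => rfl
  have hanti : Antitone s := antitone_nat_of_succ_le fun n => by
    rw [hs]; exact hnx1 n (s n)
  refine ⟨{q | ∃ n, s n ≤ q}, ⟨⟨p0, 0, le_rfl⟩, ?_, ?_⟩, ?_⟩
  · rintro p ⟨n, hn⟩ q hq
    exact ⟨n, hn.trans hq⟩
  · rintro p ⟨n, hn⟩ q ⟨m, hm⟩
    exact ⟨s (max n m), ⟨_, le_rfl⟩, (hanti (le_max_left n m)).trans hn,
      (hanti (le_max_right n m)).trans hm⟩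
  · intro D hD'
    rw [hf] at hD'
    obtain ⟨n, rfl⟩ := hD'
    exact ⟨s (n + 1), ⟨n + 1, le_rfl⟩, by rw [hs]; exact hnx2 n (s n)⟩

end Pool.Agent.Y302.PS
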