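import Pool.Agent.Y302.PS.Step

/-!
# The construction under Martin's axiom for `σ`-centred partial orders
-/

set_option autoImplicit false
set_option linter.all false

open Set Cardinal Equiv

namespace Pool.Agent.Y302.PS

open Pool.Agent.Results.MP_618ed1_al.ConsistentlyYes

theorem mk_closure_lt {C : Set (Perm ℕ)} (hC : #C < 𝔠) : #(Subgroup.closure C) < 𝔠 := by
  have h1 : Subgroup.closure C ≤ (FreeGroup.lift (Subtype.val : C → Perm ℕ)).range := by
    rw [Subgroup.closure_le]
    intro x hx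
    exact ⟨FreeGroup.of ⟨x, hx⟩, by simp⟩
  have h2 : #(FreeGroup C) < 𝔠 := by
    rcases isEmpty_or_nonempty C with h | h
    · have : Countable (FreeGroup C) := inferInstance
      exact Cardinal.mk_le_aleph0.trans_lt Cardinal.aleph0_lt_continuum
    · rw [Cardinal.mk_freeGroup]
      exact max_lt hC Cardinal.aleph0_lt_continuum
  refine (Cardinal.mk_le_mk_of_subset h1).trans_lt ?_
  exact Cardinal.mk_range_le.trans_lt h2

theorem exists_group' (hMA : MASigmaCentered) {k : ℕ} (hk : 0 < k)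
    {x0 x1 : ℕ → Fin (k + 1)} (hx1 : ∀ j, {x | x1 x = j}.Infinite)
    (hbase : ∃ a b, x0 a = x0 b ∧ x1 a ≠ x1 b) :
    ∃ G : Subgroup (Perm ℕ), Nice x0 x1 G ∧
      ∀ c : ℕ → Fin k, (∀ j, {x | c x = j}.Infinite) → ∃ g ∈ G, ∀ n, c (g n) = md k hk n := by
  classical
  let I : Type := (𝔠 : Cardinal.{0}).ord.ToType
  have hI : ∀ i : I, #{j : I | j < i} < 𝔠 := fun i => by
    have h := Cardinal.mk_Iio_lt i (by simp [I])
    rw [Cardinal.mk_ord_toType] at h
    exact h
  let C : Type := {c : ℕ → Fin k // ∀ j, {x | c x = j}.Infinite}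
  have hcard : #C ≤ #I := by
    have h1 : #C ≤ #(ℕ → Fin k) := Cardinal.mk_subtype_le _
    refine h1.trans ?_
    rw [Cardinal.mk_ord_toType]
    have h2 : #(ℕ → Fin k) ≤ #(ℕ → ℕ) :=
      Cardinal.mk_le_of_injective (f := fun (c : ℕ → Fin k) (n : ℕ) => (c n : ℕ)) (by
        intro c c' h
        funext n
        exact Fin.ext (congrFun h n))
    refine h2.trans ?_
    simp
  obtain ⟨ι⟩ := (Cardinal.le_def _ _).mp hcard
  haveI : Nonempty C := ⟨⟨md k hk, md_infinite k hk⟩⟩
  let e : I → C := Function.invFun ι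
  have he : Function.Surjective e := Function.invFun_surjective ι.injective
  let Phi : I → (I → Perm ℕ) → Perm ℕ → Prop := fun i D x =>
    Nice x0 x1 (Subgroup.closure (D '' {j | j < i})) →
      (∀ n, (e i).1 (x n) = md k hk n) ∧
      Nice x0 x1 (Subgroup.closure
        (((Subgroup.closure (D '' {j | j < i}) : Subgroup (Perm ℕ)) : Set (Perm ℕ)) ∪ {x}))
  obtain ⟨D, hD⟩ := exists_rec Phi (by
    intro i D D' x h hx
    have : D '' {j | j < i} = D' '' {j | j < i} := Set.image_congr fun j hj => h j hj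
    simp only [Phi, ← this]
    exact hx) (by
    intro i D
    by_cases hN : Nice x0 x1 (Subgroup.closure (D '' {j | j < i}))
    · obtain ⟨g, hg1, hg2⟩ := one_step' hMA (md_infinite k hk) (e i).2 hx1 _
        (mk_closure_lt (Cardinal.mk_image_le.trans_lt (hI i))) hN
      exact ⟨g, fun _ => ⟨hg1, hg2⟩⟩
    · exact ⟨1, fun h => absurd h hN⟩)
  have hKle : ∀ i, Nice x0 x1 (Subgroup.closure (D '' {j | j < i})) → Nice x0 x1 (Kle D i) := by
    intro i hi
    refine (hD i hi).2.le ?_
    unfold Kle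
    rw [Subgroup.closure_le]
    rintro _ ⟨l, hl, rfl⟩
    rcases lt_or_eq_of_le (show l ≤ i from hl) with h | h
    · exact Subgroup.subset_closure (Or.inl (Subgroup.subset_closure ⟨l, h, rfl⟩))
    · subst h
      exact Subgroup.subset_closure (Or.inr rfl)
  have hset : ∀ s : Set I, (∀ j ∈ s, Nice x0 x1 (Kle D j)) →
      Nice x0 x1 (Subgroup.closure (D '' s)) := by
    intro s hs
    constructor
    · intro f hf hf1
      rcases mem_directed D s hf with h | ⟨j, hj, h⟩
      · exact absurd h hf1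
      · exact (hs j hj).1 f h hf1
    · intro f hf
      rcases mem_directed D s hf with rfl | ⟨j, hj, h⟩
      · exact hbase
      · exact (hs j hj).2 f h
  have hall : ∀ i, Nice x0 x1 (Subgroup.closure (D '' {j | j < i})) := by
    intro i
    induction i using WellFoundedLT.induction with
    | ind i IH => exact hset _ fun j hj => hKle j (IH j hj)
  refine ⟨Subgroup.closure (D '' Set.univ), hset _ fun j _ => hKle j (hall j), ?_⟩
  intro c hc
  obtain ⟨i, hi⟩ := he ⟨c, hc⟩
  refine ⟨D i, Subgroup.subset_closure ⟨i, Set.mem_univ _, rfl⟩, ?_⟩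
  have := (hD i (hall i)).1
  rw [hi] at this
  exact this

/-- the group is even transitive on the ordered sections -/
def TransOnOrdered (G : Subgroup (Perm ℕ)) (k : ℕ) : Prop :=
  ∀ c c' : ℕ → Fin k, (∀ j, {x | c x = j}.Infinite) → (∀ j, {x | c' x = j}.Infinite) →
    ∃ g ∈ G, ∀ n, c' (g n) = c n

theorem ma_result (hMA : MASigmaCentered) (k : ℕ) (hk : 2 ≤ k) :
    ∃ G : Subgroup (Perm ℕ), TransOnOrdered G k ∧ TransOnSections G k ∧
      ¬ TransOnSections G (k + 1) ∧ ∀ g ∈ G, g ≠ 1 → {x | g x = x}.Finite := by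
  classical
  have hk0 : 0 < k := by omega
  let x0 : ℕ → Fin (k + 1) := md (k + 1) (by omega)
  let x1 : ℕ → Fin (k + 1) := fun n => x0 (Equiv.swap 0 1 n)
  have hx0 : ∀ j, {x | x0 x = j}.Infinite := md_infinite (k + 1) (by omega)
  have hx1 : ∀ j, {x | x1 x = j}.Infinite := fun j => preim_infinite (Equiv.swap 0 1) (hx0 j)
  obtain ⟨G, hG, hGc⟩ := exists_group' hMA hk0 (x0 := x0) hx1 (by
    refine ⟨0, k + 1, ?_, ?_⟩
    · simp [x0, md]
    · have h1 : x1 0 = x0 1 := by simp [x1]
      have h2 : x1 (k + 1) = x0 (k + 1) := by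
        simp only [x1]
        rw [Equiv.swap_apply_of_ne_of_ne (by omega) (by omega)]
      rw [h1, h2]
      intro h
      have := congrArg Fin.val h
      simp only [x0, md, Nat.mod_self] at this
      rw [Nat.mod_eq_of_lt (by omega)] at this
      exact one_ne_zero this)
  have hord : TransOnOrdered G k := by
    intro c c' hc hc'
    obtain ⟨g, hg, hgc⟩ := hGc c hc
    obtain ⟨g', hg', hgc'⟩ := hGc c' hc'
    refine ⟨g' * g⁻¹, G.mul_mem hg' (G.inv_mem hg), ?_⟩
    intro n
    rw [Perm.mul_apply, hgc', ← hgc]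
    simp
  refine ⟨G, hord, ?_, ?_, hG.1⟩
  · intro P Q hP hQ
    obtain ⟨c, hc, rfl⟩ := exists_colouring hP
    obtain ⟨c', hc', rfl⟩ := exists_colouring hQ
    obtain ⟨g, hg, key⟩ := hord c c' hc hc'
    refine ⟨g, hg, ?_⟩
    rw [← Set.range_comp]
    congr 1
    funext j
    ext z
    constructor
    · rintro ⟨x, hx, rfl⟩
      show c' _ = j
      rw [key]
      exact hx
    · intro hz
      refine ⟨g⁻¹ z, ?_, by simp⟩
      show c _ = j
      rw [← key]
      have : g (g⁻¹ z) = z := by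
        rw [← Perm.mul_apply, mul_inv_cancel, Perm.one_apply]
      rw [this]
      exact hz
  · intro hT
    obtain ⟨g, hg, hgP⟩ := hT _ _ (section_of_colouring hx0) (section_of_colouring hx1)
    obtain ⟨a, b, hab, hne⟩ := hG.2 g hg
    have hA : (fun A : Set ℕ => g '' A) {x | x0 x = x0 a} ∈
        Set.range fun j => {x | x1 x = j} := by
      rw [← hgP]
      exact ⟨_, ⟨x0 a, rfl⟩, rfl⟩
    obtain ⟨j, hj⟩ := hA
    have hj' : {x | x1 x = j} = g '' {x | x0 x = x0 a} := hj
    have h1 : g a ∈ {x | x1 x = j} := by rw [hj']; exact ⟨a, rfl, rfl⟩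
    have h2 : g b ∈ {x | x1 x = j} := by rw [hj']; exact ⟨b, hab.symm, rfl⟩
    exact hne ((show x1 (g a) = j from h1).trans (show x1 (g b) = j from h2).symm)

end Pool.Agent.Y302.PS
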