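import Pool.Agent.Y302.PS.Main

/-!
# Continuum many orbits on `(k + 1)`-sections
-/

set_option autoImplicit false
set_option linter.all false

open Set Cardinal Equiv

namespace Pool.Agent.Y302.PS

open Pool.Agent.Results.MP_618ed1_al.ConsistentlyYes

variable {k : ℕ}

/-- one step for a family of colourings -/
theorem exists_gF (hMA : MASigmaCentered) {c c' : ℕ → Fin k} (hc : ∀ j, {x | c x = j}.Infinite)
    (hc' : ∀ j, {x | c' x = j}.Infinite) (A : Set (ℕ → Fin (k + 1)))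
    (hA : ∀ x1 ∈ A, ∀ j, {x | x1 x = j}.Infinite) (hAc : #A < 𝔠) (H : Subgroup (Perm ℕ))
    (hHc : #H < 𝔠)
    (hH : ∀ h ∈ H, h ≠ 1 → {x | h x = x}.Finite) :
    ∃ g : Perm ℕ, (∀ n, c' (g n) = c n) ∧ Gen c c' H g ∧ ∀ x0 ∈ A, ∀ x1 ∈ A,
      ∀ (L : List (Bool × Perm ℕ)) (h0 : Perm ℕ), h0 ∈ H → L ≠ [] → Red L → (∀ x ∈ L, x.2 ∈ H) →
        ∃ a b, x0 a = x0 b ∧ x1 ((ev g L * h0) a) ≠ x1 ((ev g L * h0) b) := by
  classical
  -- the dense sets
  let D1 : H → Set (Cd c c' H) := fun h => {x | h.1 ∈ x.1.2}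
  let D2 : ℕ × Bool → Set (Cd c c' H) := fun n => {x | ∃ y, E (x.1.1 : Set (ℕ × ℕ)) n.2 n.1 y}
  let D3 : Wd H × (A × A) → Set (Cd c c' H) := fun w => {x | ∃ a b z z',
    Route (x.1.1 : Set (ℕ × ℕ)) w.1.1.2 (w.1.1.1 a) z ∧
      Route (x.1.1 : Set (ℕ × ℕ)) w.1.1.2 (w.1.1.1 b) z' ∧ w.2.1.1 a = w.2.1.1 b ∧
      w.2.2.1 z ≠ w.2.2.1 z'}
  have hfix : ∀ x : Cd c c' H, ∀ h ∈ (x.1.2 : Set (Perm ℕ)), h ≠ 1 → {y | h y = y}.Finite :=
    fun x h hh => hH h (x.2.2 h hh)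
  have hd1 : ∀ h, DenseBelow (D1 h) := by
    intro h x
    refine ⟨⟨(x.1.1, insert h.1 x.1.2), x.2.1, ?_⟩, cd_le.2 ⟨Finset.subset_insert _ _,
      Relation.ReflTransGen.refl⟩, Finset.mem_insert_self _ _⟩
    intro h' hh'
    rcases Finset.mem_insert.1 hh' with rfl | hh'
    · exact h.2
    · exact x.2.2 h' hh'
  have hd2 : ∀ n, DenseBelow (D2 n) := by
    intro n x
    obtain ⟨q, hq, y, hy⟩ := extend hc hc' x.1.2.finite_toSet (hfix x) x.1.1 x.2.1 n.2 n.1
    exact ⟨⟨(q, x.1.2), hq.good x.2.1, x.2.2⟩, cd_le.2 ⟨Finset.Subset.refl _, hq⟩, y, hy⟩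
  have hd3 : ∀ w, DenseBelow (D3 w) := by
    rintro ⟨w, x0, x1⟩ x
    let F' : Set (Perm ℕ) := (x.1.2 : Set (Perm ℕ)) ∪ {h | ∃ y ∈ w.1.2, y.2 = h}
    have hF'fin : F'.Finite := by
      refine x.1.2.finite_toSet.union ?_
      have : {h | ∃ y ∈ w.1.2, y.2 = h} = ((w.1.2.map Prod.snd).toFinset : Set (Perm ℕ)) := by
        ext h; simp
      rw [this]; exact Finset.finite_toSet _
    have hF'H : ∀ h ∈ F', h ∈ H := by
      rintro h (hh | ⟨y, hy, rfl⟩)
      · exact x.2.2 h hh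
      · exact w.2.2.2.2 y hy
    obtain ⟨q, hq, a, b, z, z', hr⟩ := task (x0 := x0.1) hc hc' (hA x1.1 x1.2) w.1.1 w.1.2 w.2.2.1 w.2.2.2.1
      hF'fin (fun h hh => hH h (hF'H h hh)) (fun y hy => Or.inr ⟨y, hy, rfl⟩) x.1.1 x.2.1
    exact ⟨⟨(q, x.1.2), hq.good x.2.1, x.2.2⟩, cd_le.2 ⟨Finset.Subset.refl _,
      hq.mono subset_union_left⟩, a, b, z, z', hr⟩
  obtain ⟨G, hG, hGD⟩ := hMA (Cd c c' H) (sigmaCentered_cd c c' H)
    (range D1 ∪ range D2 ∪ range D3) (by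
      refine (Cardinal.mk_union_le _ _).trans_lt (Cardinal.add_lt_of_lt
        Cardinal.aleph0_le_continuum ((Cardinal.mk_union_le _ _).trans_lt (Cardinal.add_lt_of_lt
        Cardinal.aleph0_le_continuum ?_ ?_)) ?_)
      · exact Cardinal.mk_range_le.trans_lt hHc
      · exact Cardinal.mk_range_le.trans_lt
          ((Cardinal.mk_le_aleph0 (α := ℕ × Bool)).trans_lt Cardinal.aleph0_lt_continuum)
      · refine Cardinal.mk_range_le.trans_lt ?_
        rw [Cardinal.mk_prod, Cardinal.mk_prod]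
        simp only [Cardinal.lift_id]
        exact Cardinal.mul_lt_of_lt Cardinal.aleph0_le_continuum (mk_words_lt H hHc)
          (Cardinal.mul_lt_of_lt Cardinal.aleph0_le_continuum hAc hAc)) (by
      rintro D ((⟨h, rfl⟩ | ⟨n, rfl⟩) | ⟨w, rfl⟩)
      · exact hd1 h
      · exact hd2 n
      · exact hd3 w)
  have hG1 : ∀ h ∈ H, ∃ x ∈ G, h ∈ x.1.2 := by
    intro h hh
    obtain ⟨x, hx, hxD⟩ := hGD (D1 ⟨h, hh⟩) (Or.inl (Or.inl ⟨_, rfl⟩))
    exact ⟨x, hx, hxD⟩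
  have hG2 : ∀ n e, ∃ x ∈ G, ∃ y, E (x.1.1 : Set (ℕ × ℕ)) e n y := by
    intro n e
    obtain ⟨x, hx, hxD⟩ := hGD (D2 (n, e)) (Or.inl (Or.inr ⟨_, rfl⟩))
    exact ⟨x, hx, hxD⟩
  have hG3 : ∀ (w : Wd H) (x0 x1 : A), ∃ x ∈ G, ∃ a b z z',
      Route (x.1.1 : Set (ℕ × ℕ)) w.1.2 (w.1.1 a) z ∧
      Route (x.1.1 : Set (ℕ × ℕ)) w.1.2 (w.1.1 b) z' ∧ x0.1 a = x0.1 b ∧ x1.1 z ≠ x1.1 z' := by
    intro w x0 x1
    obtain ⟨x, hx, hxD⟩ := hGD (D3 (w, x0, x1)) (Or.inr ⟨_, rfl⟩)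
    exact ⟨x, hx, hxD⟩
  let Gr : Set (ℕ × ℕ) := ⋃ x ∈ G, (x.1.1 : Set (ℕ × ℕ))
  have hGr : ∀ x ∈ G, (x.1.1 : Set (ℕ × ℕ)) ⊆ Gr := fun x hx =>
    Set.subset_biUnion_of_mem (u := fun x : Cd c c' H => (x.1.1 : Set (ℕ × ℕ))) hx
  have hcommon : ∀ z ∈ Gr, ∀ z' ∈ Gr, ∃ x ∈ G, z ∈ x.1.1 ∧ z' ∈ x.1.1 := by
    intro z hz z' hz'
    obtain ⟨x, hx, hzx⟩ := mem_iUnion₂.1 hz
    obtain ⟨x', hx', hzx'⟩ := mem_iUnion₂.1 hz'
    obtain ⟨r, hr, hr1, hr2⟩ := hG.directed x hx x' hx'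
    exact ⟨r, hr, (cd_le.1 hr1).2.subset hzx, (cd_le.1 hr2).2.subset hzx'⟩
  have htot : ∀ n, ∃ y, (n, y) ∈ Gr := by
    intro n
    obtain ⟨x, hx, y, hy⟩ := hG2 n true
    exact ⟨y, hGr x hx (by simpa [E] using hy)⟩
  have hsurj : ∀ n, ∃ y, (y, n) ∈ Gr := by
    intro n
    obtain ⟨x, hx, y, hy⟩ := hG2 n false
    exact ⟨y, hGr x hx (by simpa [E] using hy)⟩
  choose f hf using htot
  have hfun : ∀ a b, (a, b) ∈ Gr → f a = b := by
    intro a b hab
    obtain ⟨x, hx, h1, h2⟩ := hcommon _ hab _ (hf a)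
    exact x.2.1.inj1 _ _ _ h2 h1
  have hbij : Function.Bijective f := by
    constructor
    · intro a a' haa
      obtain ⟨x, hx, h1, h2⟩ := hcommon _ (hf a) _ (hf a')
      rw [← haa] at h2
      exact x.2.1.inj2 _ _ _ h1 h2
    · intro b
      obtain ⟨a, ha⟩ := hsurj b
      exact ⟨a, hfun _ _ ha⟩
  let g : Perm ℕ := Equiv.ofBijective f hbij
  have hgGr : Graph g = Gr := by
    ext ⟨a, b⟩
    constructor
    · intro h
      have h' : f a = b := h
      rw [← h']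
      exact hf a
    · intro h
      exact hfun _ _ h
  refine ⟨g, ?_, ?_, ?_⟩
  · intro n
    obtain ⟨x, hx, hm⟩ := mem_iUnion₂.1 (hf n)
    exact x.2.1.col _ _ hm
  · intro F0 hF0 hF0H
    have hx : ∃ x ∈ G, ∀ h ∈ F0, h ∈ x.1.2 := by
      induction F0, hF0 using Set.Finite.induction_on with
      | empty =>
        obtain ⟨x, hx⟩ := hG.nonempty
        exact ⟨x, hx, by simp⟩
      | @insert a s _ _ ih =>
        obtain ⟨x, hx, hxs⟩ := ih fun h hh => hF0H (Or.inr hh)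
        obtain ⟨y, hy, hya⟩ := hG1 a (hF0H (Or.inl rfl))
        obtain ⟨r, hr, hr1, hr2⟩ := hG.directed x hx y hy
        refine ⟨r, hr, fun h hh => ?_⟩
        rcases hh with rfl | hh
        · exact (cd_le.1 hr2).1 hya
        · exact (cd_le.1 hr1).1 (hxs h hh)
    obtain ⟨x, hx, hxF⟩ := hx
    refine ⟨x.1.1, fun S hS => ?_⟩
    rw [hgGr] at hS
    obtain ⟨y, hy, hyS⟩ : ∃ y ∈ G, S ⊆ y.1.1 := by
      induction S using Finset.induction_on with
      | empty =>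
        exact ⟨x, hx, Finset.empty_subset _⟩
      | insert a S ha ih =>
        rw [Finset.coe_insert, Set.insert_subset_iff] at hS
        obtain ⟨y, hy, hyS⟩ := ih hS.2
        obtain ⟨y', hy', hya⟩ := mem_iUnion₂.1 hS.1
        obtain ⟨r, hr, hr1, hr2⟩ := hG.directed y hy y' hy'
        exact ⟨r, hr, Finset.insert_subset_iff.2 ⟨(cd_le.1 hr2).2.subset hya,
          hyS.trans (cd_le.1 hr1).2.subset⟩⟩
    obtain ⟨r, hr, hr1, hr2⟩ := hG.directed x hx y hy
    exact ⟨r.1.1, (cd_le.1 hr1).2.mono (fun h hh => hxF h hh), hyS.trans (cd_le.1 hr2).2.subset⟩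
  · intro x0 hx0 x1 hx1 L h0 hh0 hL hred hLH
    obtain ⟨x, hx, a, b, z, z', hr1, hr2, hab, hzz⟩ := hG3 ⟨(h0, L), hh0, hL, hred, hLH⟩
      ⟨x0, hx0⟩ ⟨x1, hx1⟩
    have hle : (x.1.1 : Set (ℕ × ℕ)) ⊆ Graph g := by
      rw [hgGr]
      exact hGr x hx
    have h1 := route_graph L _ _ (hr1.mono hle)
    have h2 := route_graph L _ _ (hr2.mono hle)
    refine ⟨a, b, hab, ?_⟩
    simp only [Perm.mul_apply]
    rw [h1, h2]
    exact hzz

/-- the preserved properties of a group and a family of colourings -/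
def NiceF (A : Set (ℕ → Fin (k + 1))) (H : Subgroup (Perm ℕ)) : Prop :=
  (∀ h ∈ H, h ≠ 1 → {x | h x = x}.Finite) ∧
    ∀ x0 ∈ A, ∀ x1 ∈ A, x0 ≠ x1 → ∀ h ∈ H, ∃ a b, x0 a = x0 b ∧ x1 (h a) ≠ x1 (h b)

theorem NiceF.le {A : Set (ℕ → Fin (k + 1))} {H H' : Subgroup (Perm ℕ)} (h : NiceF A H)
    (hle : H' ≤ H) : NiceF A H' :=
  ⟨fun f hf => h.1 f (hle hf), fun x0 h0 x1 h1 hne f hf => h.2 x0 h0 x1 h1 hne f (hle hf)⟩

theorem one_stepF (hMA : MASigmaCentered) {c c' : ℕ → Fin k}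
    (hc : ∀ j, {x | c x = j}.Infinite)
    (hc' : ∀ j, {x | c' x = j}.Infinite) (A : Set (ℕ → Fin (k + 1)))
    (hA : ∀ x1 ∈ A, ∀ j, {x | x1 x = j}.Infinite) (hAc : #A < 𝔠) (H : Subgroup (Perm ℕ))
    (hHc : #H < 𝔠) (hH : NiceF A H) :
    ∃ g : Perm ℕ, (∀ n, c' (g n) = c n) ∧
      NiceF A (Subgroup.closure ((H : Set (Perm ℕ)) ∪ {g})) := by
  obtain ⟨g, hg1, hg2, hg3⟩ := exists_gF hMA hc hc' A hA hAc H hHc hH.1
  refine ⟨g, hg1, ?_, ?_⟩
  · intro f hf hf1
    obtain ⟨L, h0, hh0, hL, hred, rfl⟩ := exists_rep hf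
    exact fix_finite hg2 hH.1 L.length L h0 rfl hh0 hL hred hf1
  · intro x0 hx0 x1 hx1 hne f hf
    obtain ⟨L, h0, hh0, hL, hred, rfl⟩ := exists_rep hf
    rcases L with _ | ⟨x, L⟩
    · simp only [ev, one_mul]
      exact hH.2 x0 hx0 x1 hx1 hne h0 hh0
    · exact hg3 x0 hx0 x1 hx1 _ h0 hh0 (by simp) hred hL

/-- continuum many colourings with infinite classes -/
def cs (k : ℕ) (s : ℕ → Bool) : ℕ → Fin (k + 1) := fun n =>
  if n % 2 = 0 then md (k + 1) (by omega) (n / 2) else if s (n / 2) then 0 else Fin.last k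

theorem cs_infinite (k : ℕ) (s : ℕ → Bool) (j : Fin (k + 1)) : {x | cs k s x = j}.Infinite := by
  have h := md_infinite (k + 1) (by omega) j
  refine (h.image (f := fun n => 2 * n) (fun a _ b _ hab => by
    have : 2 * a = 2 * b := hab
    omega)).mono ?_
  rintro _ ⟨n, hn, rfl⟩
  show cs k s (2 * n) = j
  unfold cs
  rw [if_pos (by omega), show 2 * n / 2 = n by omega]
  exact hn

theorem cs_injective (hk : 1 ≤ k) : Function.Injective (cs k) := by
  intro s t h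
  funext n
  have h1 := congrFun h (2 * n + 1)
  have e1 : ∀ u : ℕ → Bool, cs k u (2 * n + 1) = if u n then 0 else Fin.last k := by
    intro u
    unfold cs
    rw [if_neg (by omega), show (2 * n + 1) / 2 = n by omega]
  rw [e1, e1] at h1
  have hne : (0 : Fin (k + 1)) ≠ Fin.last k := by
    intro h0
    have := congrArg Fin.val h0
    simp at this
    omega
  cases hs : s n <;> cases ht : t n
  · rfl
  · rw [hs, ht] at h1
    simp at h1
    omega
  · rw [hs, ht] at h1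
    simp at h1
    omega
  · rfl

/-- a new colouring which no element of the group relates to the old ones -/
theorem exists_new (hk : 1 ≤ k) (A : Set (ℕ → Fin (k + 1)))
    (hA : ∀ x1 ∈ A, ∀ j, {x | x1 x = j}.Infinite) (hAc : #A < 𝔠) (H : Subgroup (Perm ℕ))
    (hHc : #H < 𝔠) (hH : NiceF A H) :
    ∃ y : ℕ → Fin (k + 1), (∀ j, {x | y x = j}.Infinite) ∧ y ∉ A ∧ NiceF (insert y A) H := by
  classical
  let B : Set (ℕ → Fin (k + 1)) := range fun t : (Fin (k + 1) → Fin (k + 1)) × (A × H) =>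
    fun n => t.1 (t.2.1.1 (t.2.2.1 n))
  have hB : #B < 𝔠 := by
    refine Cardinal.mk_range_le.trans_lt ?_
    rw [Cardinal.mk_prod, Cardinal.mk_prod]
    simp only [Cardinal.lift_id]
    refine Cardinal.mul_lt_of_lt Cardinal.aleph0_le_continuum ?_
      (Cardinal.mul_lt_of_lt Cardinal.aleph0_le_continuum hAc hHc)
    exact (Cardinal.mk_le_aleph0 (α := Fin (k + 1) → Fin (k + 1))).trans_lt
      Cardinal.aleph0_lt_continuum
  obtain ⟨s, hs⟩ : ∃ s, cs k s ∉ B := by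
    by_contra hno
    push Not at hno
    have h1 : #(ℕ → Bool) ≤ #B :=
      Cardinal.mk_le_of_injective (f := fun s => (⟨cs k s, hno s⟩ : B)) (fun s t h =>
        cs_injective hk (congrArg Subtype.val h))
    have h2 : #(ℕ → Bool) = 𝔠 := by simp
    rw [h2] at h1
    exact absurd hB (not_lt.2 h1)
  have hyi := cs_infinite k s
  obtain ⟨y, hy⟩ : ∃ y, y = cs k s := ⟨_, rfl⟩
  rw [← hy] at hs hyi
  have hys : ∀ j, ∃ a, y a = j := fun j => (hyi j).nonempty
  have h1 : ∀ x ∈ A, ∀ h ∈ H, ∃ a b, x a = x b ∧ y (h a) ≠ y (h b) := by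
    intro x hx h hh
    by_contra hno
    push Not at hno
    apply hs
    choose p hp using fun j => (hA x hx j).nonempty
    refine ⟨(fun j => y (h (p j)), ⟨x, hx⟩, ⟨h⁻¹, H.inv_mem hh⟩), ?_⟩
    funext n
    have h2 := hno (p (x (h⁻¹ n))) (h⁻¹ n) (hp (x (h⁻¹ n)))
    simp only
    rw [h2]
    simp
  have h2 : ∀ x ∈ A, ∀ h ∈ H, ∃ a b, y a = y b ∧ x (h a) ≠ x (h b) := by
    intro x hx h hh
    by_contra hno
    push Not at hno
    apply hs
    choose p hp using hys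
    let σ : Fin (k + 1) → Fin (k + 1) := fun j => x (h (p j))
    have hσ : ∀ a, x (h a) = σ (y a) := fun a => hno a (p (y a)) (hp (y a)).symm
    have hsur : Function.Surjective σ := by
      intro j
      obtain ⟨n, hn⟩ := (hA x hx j).nonempty
      refine ⟨y (h⁻¹ n), ?_⟩
      rw [← hσ]
      simpa using hn
    have hinj : Function.Injective σ := Finite.injective_iff_surjective.2 hsur
    refine ⟨(Function.invFun σ, ⟨x, hx⟩, ⟨h, hh⟩), ?_⟩
    funext n
    simp only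
    rw [hσ]
    exact Function.leftInverse_invFun hinj (y n)
  refine ⟨y, hyi, ?_, hH.1, ?_⟩
  · intro hyA
    apply hs
    refine ⟨(id, ⟨y, hyA⟩, ⟨1, H.one_mem⟩), ?_⟩
    funext n
    simp
  · rintro x0 (rfl | h0) x1 (rfl | h1') hne h hh
    · exact absurd rfl hne
    · exact h2 x1 h1' h hh
    · exact h1 x0 h0 h hh
    · exact hH.2 x0 h0 x1 h1' hne h hh

theorem exists_groupF (hMA : MASigmaCentered) (hk : 0 < k) :
    ∃ (G : Subgroup (Perm ℕ)) (A : Set (ℕ → Fin (k + 1))), NiceF A G ∧ #A = 𝔠 ∧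
      (∀ x ∈ A, ∀ j, {n | x n = j}.Infinite) ∧
      ∀ c : ℕ → Fin k, (∀ j, {x | c x = j}.Infinite) → ∃ g ∈ G, ∀ n, c (g n) = md k hk n := by
  classical
  let I : Type := (𝔠 : Cardinal.{0}).ord.ToType
  have hIc : #I = 𝔠 := Cardinal.mk_ord_toType _
  have hI : ∀ i : I, #{j : I | j < i} < 𝔠 := fun i => by
    have h := Cardinal.mk_Iio_lt i (by simp [I])
    rw [Cardinal.mk_ord_toType] at h
    exact h
  let C : Type := {c : ℕ → Fin k // ∀ j, {x | c x = j}.Infinite}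
  have hcard : #C ≤ #I := by
    have h1 : #C ≤ #(ℕ → Fin k) := Cardinal.mk_subtype_le _
    refine h1.trans ?_
    rw [hIc]
    have h2 : #(ℕ → Fin k) ≤ #(ℕ → ℕ) :=
      Cardinal.mk_le_of_injective (f := fun (c : ℕ → Fin k) (n : ℕ) => (c n : ℕ)) (by
        intro c c' h
        funext n
        exact Fin.ext (congrFun h n))
    refine h2.trans ?_
    simp
  obtain ⟨ι⟩ := (Cardinal.le_def _ _).mp hcard
  haveI : Nonempty C := ⟨⟨md k hk, md_infinite k hk⟩⟩
  let e : I → C := Function.invFun ι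
  have he : Function.Surjective e := Function.invFun_surjective ι.injective
  let AA : I → (I → (ℕ → Fin (k + 1)) × Perm ℕ) → Set (ℕ → Fin (k + 1)) := fun i D =>
    (fun j => (D j).1) '' {j | j < i}
  let HH : I → (I → (ℕ → Fin (k + 1)) × Perm ℕ) → Subgroup (Perm ℕ) := fun i D =>
    Subgroup.closure ((fun j => (D j).2) '' {j | j < i})
  let Phi : I → (I → (ℕ → Fin (k + 1)) × Perm ℕ) → (ℕ → Fin (k + 1)) × Perm ℕ → Prop :=
    fun i D x => (NiceF (AA i D) (HH i D) ∧ ∀ y ∈ AA i D, ∀ j, {n | y n = j}.Infinite) →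
      (∀ j, {n | x.1 n = j}.Infinite) ∧ x.1 ∉ AA i D ∧ (∀ n, (e i).1 (x.2 n) = md k hk n) ∧
      NiceF (insert x.1 (AA i D)) (Subgroup.closure ((HH i D : Set (Perm ℕ)) ∪ {x.2}))
  obtain ⟨D, hD⟩ := exists_rec Phi (by
    intro i D D' x h hx
    have h1 : AA i D = AA i D' := Set.image_congr fun j hj => by rw [h j hj]
    have h2 : HH i D = HH i D' := by
      show Subgroup.closure _ = Subgroup.closure _
      rw [Set.image_congr (g := fun j => (D' j).2) fun j hj => by rw [h j hj]]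
    simp only [Phi, ← h1, ← h2]
    exact hx) (by
    intro i D
    by_cases hN : NiceF (AA i D) (HH i D) ∧ ∀ y ∈ AA i D, ∀ j, {n | y n = j}.Infinite
    · have hHc : #(HH i D) < 𝔠 := mk_closure_lt (Cardinal.mk_image_le.trans_lt (hI i))
      have hAc : #(AA i D) < 𝔠 := Cardinal.mk_image_le.trans_lt (hI i)
      obtain ⟨y, hy1, hy2, hy3⟩ := exists_new hk (AA i D) hN.2 hAc (HH i D) hHc hN.1
      have hAc' : #(insert y (AA i D) : Set (ℕ → Fin (k + 1))) < 𝔠 :=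
        Cardinal.mk_insert_le.trans_lt (Cardinal.add_lt_of_lt Cardinal.aleph0_le_continuum hAc
          (Cardinal.one_lt_aleph0.trans Cardinal.aleph0_lt_continuum))
      obtain ⟨g, hg1, hg2⟩ := one_stepF hMA (md_infinite k hk) (e i).2 (insert y (AA i D)) (by
        rintro x (rfl | hx)
        · exact hy1
        · exact hN.2 x hx) hAc' _ hHc hy3
      exact ⟨(y, g), fun _ => ⟨hy1, hy2, hg1, hg2⟩⟩
    · exact ⟨default, fun h => absurd h hN⟩)
  let D1 : I → (ℕ → Fin (k + 1)) := fun j => (D j).1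
  let D2 : I → Perm ℕ := fun j => (D j).2
  have hmono : ∀ j j', j ≤ j' → Kle D2 j ≤ Kle D2 j' := by
    intro j j' h
    exact Subgroup.closure_mono (Set.image_mono fun l hl => le_trans hl h)
  -- what is known at a stage
  let Ok : I → Prop := fun i => NiceF (D1 '' {j | j ≤ i}) (Kle D2 i) ∧
    (∀ j, {n | D1 i n = j}.Infinite) ∧ (∀ j < i, D1 j ≠ D1 i) ∧ ∀ n, (e i).1 (D2 i n) = md k hk n
  have hset : ∀ s : Set I, (∀ j ∈ s, Ok j) →
      NiceF (D1 '' s) (Subgroup.closure (D2 '' s)) ∧ ∀ y ∈ D1 '' s, ∀ j, {n | y n = j}.Infinite := by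
    intro s hs
    refine ⟨⟨?_, ?_⟩, ?_⟩
    · intro f hf hf1
      rcases mem_directed D2 s hf with h | ⟨j, hj, h⟩
      · exact absurd h hf1
      · exact (hs j hj).1.1 f h hf1
    · rintro _ ⟨a, ha, rfl⟩ _ ⟨b, hb, rfl⟩ hne f hf
      have hmax : max a b ∈ s := by
        rcases max_choice a b with h | h <;> rw [h] <;> assumption
      rcases mem_directed D2 s hf with rfl | ⟨j, hj, h⟩
      · exact (hs _ hmax).1.2 _ ⟨a, le_max_left a b, rfl⟩ _ ⟨b, le_max_right a b, rfl⟩ hne 1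
          (Subgroup.one_mem _)
      · have hmax' : max (max a b) j ∈ s := by
          rcases max_choice (max a b) j with h | h <;> rw [h] <;> assumption
        exact (hs _ hmax').1.2 _ ⟨a, (le_max_left a b).trans (le_max_left _ _), rfl⟩ _
          ⟨b, (le_max_right a b).trans (le_max_left _ _), rfl⟩ hne f
          (hmono _ _ (le_max_right _ _) h)
    · rintro _ ⟨a, ha, rfl⟩
      exact (hs a ha).2.1
  have hok : ∀ i, Ok i := by
    intro i
    induction i using WellFoundedLT.induction with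
    | ind i IH =>
      obtain ⟨h1, h2, h3, h4⟩ := hD i (hset {j | j < i} fun j hj => IH j hj)
      refine ⟨?_, h1, fun j hj h => h2 ⟨j, hj, h⟩, h3⟩
      have hle : Kle D2 i ≤ Subgroup.closure ((HH i D : Set (Perm ℕ)) ∪ {(D i).2}) := by
        unfold Kle
        rw [Subgroup.closure_le]
        rintro _ ⟨l, hl, rfl⟩
        rcases lt_or_eq_of_le (show l ≤ i from hl) with h | h
        · exact Subgroup.subset_closure (Or.inl (Subgroup.subset_closure ⟨l, h, rfl⟩))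
        · subst h
          exact Subgroup.subset_closure (Or.inr rfl)
      have hsub : D1 '' {j | j ≤ i} = insert (D i).1 (AA i D) := by
        ext y
        constructor
        · rintro ⟨l, hl, rfl⟩
          rcases lt_or_eq_of_le (show l ≤ i from hl) with h | h
          · exact Or.inr ⟨l, h, rfl⟩
          · subst h
            exact Or.inl rfl
        · rintro (rfl | ⟨l, hl, rfl⟩)
          · exact ⟨i, show i ≤ i from le_rfl, rfl⟩
          · exact ⟨l, show l ≤ i from le_of_lt hl, rfl⟩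
      rw [hsub]
      exact h4.le hle
  have hinj : Function.Injective D1 := by
    intro a b hab
    rcases lt_trichotomy a b with h | h | h
    · exact absurd hab ((hok b).2.2.1 a h)
    · exact h
    · exact absurd hab.symm ((hok a).2.2.1 b h)
  obtain ⟨h1, h2⟩ := hset Set.univ fun j _ => hok j
  refine ⟨Subgroup.closure (D2 '' Set.univ), D1 '' Set.univ, h1, ?_, h2, ?_⟩
  · rw [Set.image_univ, Cardinal.mk_range_eq D1 hinj, hIc]
  · intro c hc
    obtain ⟨i, hi⟩ := he ⟨c, hc⟩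
    refine ⟨D2 i, Subgroup.subset_closure ⟨i, Set.mem_univ _, rfl⟩, ?_⟩
    have := (hok i).2.2.2
    rw [hi] at this
    exact this

/-- `G` has `𝔠` orbits on `m`-sections: there are `𝔠` pairwise inequivalent `m`-sections. -/
def ManyOrbits (G : Subgroup (Perm ℕ)) (m : ℕ) : Prop :=
  ∃ S : Set (Set (Set ℕ)), #S = 𝔠 ∧ (∀ P ∈ S, IsSection m P) ∧
    ∀ P ∈ S, ∀ Q ∈ S, P ≠ Q → ∀ g ∈ G, (fun A : Set ℕ => g '' A) '' P ≠ Q

theorem ManyOrbits.not_trans {G : Subgroup (Perm ℕ)} {m : ℕ} (h : ManyOrbits G m) :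
    ¬ TransOnSections G m := by
  obtain ⟨S, hS, hS1, hS2⟩ := h
  intro hT
  have : Nontrivial S := by
    rw [← Cardinal.one_lt_iff_nontrivial, hS]
    exact Cardinal.one_lt_aleph0.trans Cardinal.aleph0_lt_continuum
  obtain ⟨P, Q, hPQ⟩ := exists_pair_ne S
  obtain ⟨g, hg, hgPQ⟩ := hT P.1 Q.1 (hS1 _ P.2) (hS1 _ Q.2)
  exact hS2 _ P.2 _ Q.2 (fun h => hPQ (Subtype.ext h)) g hg hgPQ

theorem ma_orbits (hMA : MASigmaCentered) (k : ℕ) (hk : 2 ≤ k) :
    ∃ G : Subgroup (Perm ℕ), TransOnOrdered G k ∧ TransOnSections G k ∧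
      ManyOrbits G (k + 1) ∧ ∀ g ∈ G, g ≠ 1 → {x | g x = x}.Finite := by
  classical
  have hk0 : 0 < k := by omega
  obtain ⟨G, A, hG, hAc, hA, hGc⟩ := exists_groupF hMA hk0
  have hord : TransOnOrdered G k := by
    intro c c' hc hc'
    obtain ⟨g, hg, hgc⟩ := hGc c hc
    obtain ⟨g', hg', hgc'⟩ := hGc c' hc'
    refine ⟨g' * g⁻¹, G.mul_mem hg' (G.inv_mem hg), ?_⟩
    intro n
    rw [Perm.mul_apply, hgc', ← hgc]
    simp
  refine ⟨G, hord, ?_, ?_, hG.1⟩
  · intro P Q hP hQ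
    obtain ⟨c, hc, rfl⟩ := exists_colouring hP
    obtain ⟨c', hc', rfl⟩ := exists_colouring hQ
    obtain ⟨g, hg, key⟩ := hord c c' hc hc'
    refine ⟨g, hg, ?_⟩
    rw [← Set.range_comp]
    congr 1
    funext j
    ext z
    constructor
    · rintro ⟨x, hx, rfl⟩
      show c' _ = j
      rw [key]
      exact hx
    · intro hz
      refine ⟨g⁻¹ z, ?_, by simp⟩
      show c _ = j
      rw [← key]
      have : g (g⁻¹ z) = z := by
        rw [← Perm.mul_apply, mul_inv_cancel, Perm.one_apply]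
      rw [this]
      exact hz
  · -- no element of `G` relates two different members of `A`
    have hno : ∀ x0 ∈ A, ∀ x1 ∈ A, x0 ≠ x1 → ∀ g ∈ G,
        (fun A : Set ℕ => g '' A) '' (Set.range fun j => {x | x0 x = j}) ≠
          Set.range fun j => {x | x1 x = j} := by
      intro x0 h0 x1 h1 hne g hg hgP
      obtain ⟨a, b, hab, hne'⟩ := hG.2 x0 h0 x1 h1 hne g hg
      have hA : (fun A : Set ℕ => g '' A) {x | x0 x = x0 a} ∈
          Set.range fun j => {x | x1 x = j} := by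
        rw [← hgP]
        exact ⟨_, ⟨x0 a, rfl⟩, rfl⟩
      obtain ⟨j, hj⟩ := hA
      have hj' : {x | x1 x = j} = g '' {x | x0 x = x0 a} := hj
      have h1 : g a ∈ {x | x1 x = j} := by rw [hj']; exact ⟨a, rfl, rfl⟩
      have h2 : g b ∈ {x | x1 x = j} := by rw [hj']; exact ⟨b, hab.symm, rfl⟩
      exact hne' ((show x1 (g a) = j from h1).trans (show x1 (g b) = j from h2).symm)
    let sec : (ℕ → Fin (k + 1)) → Set (Set ℕ) := fun x => Set.range fun j => {n | x n = j}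
    have hsinj : InjOn sec A := by
      intro x0 h0 x1 h1 h
      by_contra hne
      refine hno x0 h0 x1 h1 hne 1 G.one_mem ?_
      rw [show (fun A : Set ℕ => ((1 : Perm ℕ) : ℕ → ℕ) '' A) = id by
        funext B; simp]
      rw [Set.image_id]
      exact h
    refine ⟨sec '' A, ?_, ?_, ?_⟩
    · rw [Cardinal.mk_image_eq_of_injOn sec A hsinj, hAc]
    · rintro _ ⟨x, hx, rfl⟩
      exact section_of_colouring (hA x hx)
    · rintro _ ⟨x0, h0, rfl⟩ _ ⟨x1, h1, rfl⟩ hne g hg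
      exact hno x0 h0 x1 h1 (fun h => hne (by rw [h])) g hg

end Pool.Agent.Y302.PS
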