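import Pool.Agent.Y302.PS.Defs
import Pool.Agent.Results.MP_618ed1_al.ConsistentlyYes

/-!
# One step of the construction over a group of fewer than `𝔠` permutations
-/

set_option autoImplicit false
set_option linter.all false

open Set Cardinal Equiv

namespace Pool.Agent.Y302.PS

open Pool.Agent.Results.MP_618ed1_al.ConsistentlyYes

variable {k : ℕ}

/-- conditions: a finite good set of pairs and a finite subset of `H` -/
def Cd (c c' : ℕ → Fin k) (H : Subgroup (Perm ℕ)) : Type :=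
  {x : Finset (ℕ × ℕ) × Finset (Perm ℕ) // Good c c' x.1 ∧ ∀ h ∈ x.2, h ∈ H}

instance (c c' : ℕ → Fin k) (H : Subgroup (Perm ℕ)) : Preorder (Cd c c' H) where
  le x y := y.1.2 ⊆ x.1.2 ∧ Ext c c' (y.1.2 : Set (Perm ℕ)) y.1.1 x.1.1
  le_refl x := ⟨Finset.Subset.refl _, Relation.ReflTransGen.refl⟩
  le_trans x y z hxy hyz := ⟨hyz.1.trans hxy.1,
    hyz.2.trans (hxy.2.mono (by exact_mod_cast hyz.1))⟩

theorem cd_le {c c' : ℕ → Fin k} {H : Subgroup (Perm ℕ)} {x y : Cd c c' H} :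
    x ≤ y ↔ y.1.2 ⊆ x.1.2 ∧ Ext c c' (y.1.2 : Set (Perm ℕ)) y.1.1 x.1.1 := Iff.rfl

theorem good_empty (c c' : ℕ → Fin k) : Good c c' ∅ := ⟨by simp, by simp, by simp⟩

instance (c c' : ℕ → Fin k) (H : Subgroup (Perm ℕ)) : Nonempty (Cd c c' H) :=
  ⟨⟨(∅, ∅), good_empty c c', by simp⟩⟩

theorem sigmaCentered_cd (c c' : ℕ → Fin k) (H : Subgroup (Perm ℕ)) :
    SigmaCentered (Cd c c' H) := by
  classical
  refine ⟨fun x => Encodable.encode x.1.1, fun n s hs => ?_⟩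
  rcases s.eq_empty_or_nonempty with rfl | ⟨x0, hx0⟩
  · obtain ⟨q⟩ := (inferInstance : Nonempty (Cd c c' H))
    exact ⟨q, by simp⟩
  · refine ⟨⟨(x0.1.1, s.biUnion fun x => x.1.2), x0.2.1, ?_⟩, fun x hx => cd_le.2 ⟨?_, ?_⟩⟩
    · intro h hh
      obtain ⟨x, -, hx⟩ := Finset.mem_biUnion.1 hh
      exact x.2.2 h hx
    · exact Finset.subset_biUnion_of_mem (fun x : Cd c c' H => x.1.2) hx
    · have : x.1.1 = x0.1.1 := Encodable.encode_injective ((hs x hx).trans (hs x0 hx0).symm)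
      rw [this]
      exact Relation.ReflTransGen.refl

/-- the words over `H` -/
def Wd (H : Subgroup (Perm ℕ)) : Set (Perm ℕ × List (Bool × Perm ℕ)) :=
  {w | w.1 ∈ H ∧ w.2 ≠ [] ∧ Red w.2 ∧ ∀ x ∈ w.2, x.2 ∈ H}

theorem mk_words_lt (H : Subgroup (Perm ℕ)) (hH : #H < 𝔠) : #(Wd H) < 𝔠 := by
  have h1 : Wd H ⊆ range (fun w : H × List (Bool × H) =>
      ((w.1.1, w.2.map fun x => (x.1, x.2.1)) : Perm ℕ × List (Bool × Perm ℕ))) := by
    rintro ⟨h0, L⟩ ⟨h1, -, -, h2⟩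
    have : ∀ L : List (Bool × Perm ℕ), (∀ x ∈ L, x.2 ∈ H) →
        ∃ L' : List (Bool × H), L'.map (fun x => (x.1, (x.2 : Perm ℕ))) = L := by
      intro L
      induction L with
      | nil => exact fun _ => ⟨[], rfl⟩
      | cons a L ih =>
        intro h
        obtain ⟨L', hL'⟩ := ih fun x hx => h x (List.mem_cons_of_mem _ hx)
        refine ⟨(a.1, ⟨a.2, h a (by simp)⟩) :: L', ?_⟩
        simp [hL']
    obtain ⟨L', hL'⟩ := this L h2
    exact ⟨(⟨h0, h1⟩, L'), by simp [hL']⟩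
  refine (Cardinal.mk_le_mk_of_subset h1).trans_lt (Cardinal.mk_range_le.trans_lt ?_)
  rw [Cardinal.mk_prod, Cardinal.lift_id, Cardinal.lift_id]
  refine Cardinal.mul_lt_of_lt Cardinal.aleph0_le_continuum hH ?_
  refine (Cardinal.mk_list_le_max _).trans_lt (max_lt Cardinal.aleph0_lt_continuum ?_)
  rw [Cardinal.mk_prod, Cardinal.lift_id, Cardinal.lift_id]
  refine Cardinal.mul_lt_of_lt Cardinal.aleph0_le_continuum ?_ hH
  exact (Cardinal.mk_le_aleph0 (α := Bool)).trans_lt Cardinal.aleph0_lt_continuum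

theorem exists_g' (hMA : MASigmaCentered) {c c' : ℕ → Fin k} (hc : ∀ j, {x | c x = j}.Infinite)
    (hc' : ∀ j, {x | c' x = j}.Infinite) {x0 x1 : ℕ → Fin (k + 1)}
    (hx1 : ∀ j, {x | x1 x = j}.Infinite) (H : Subgroup (Perm ℕ)) (hHc : #H < 𝔠)
    (hH : ∀ h ∈ H, h ≠ 1 → {x | h x = x}.Finite) :
    ∃ g : Perm ℕ, (∀ n, c' (g n) = c n) ∧ Gen c c' H g ∧
      ∀ (L : List (Bool × Perm ℕ)) (h0 : Perm ℕ), h0 ∈ H → L ≠ [] → Red L → (∀ x ∈ L, x.2 ∈ H) →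
        ∃ a b, x0 a = x0 b ∧ x1 ((ev g L * h0) a) ≠ x1 ((ev g L * h0) b) := by
  classical
  -- the dense sets
  let D1 : H → Set (Cd c c' H) := fun h => {x | h.1 ∈ x.1.2}
  let D2 : ℕ × Bool → Set (Cd c c' H) := fun n => {x | ∃ y, E (x.1.1 : Set (ℕ × ℕ)) n.2 n.1 y}
  let D3 : Wd H → Set (Cd c c' H) := fun w => {x | ∃ a b z z',
    Route (x.1.1 : Set (ℕ × ℕ)) w.1.2 (w.1.1 a) z ∧
      Route (x.1.1 : Set (ℕ × ℕ)) w.1.2 (w.1.1 b) z' ∧ x0 a = x0 b ∧ x1 z ≠ x1 z'}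
  have hfix : ∀ x : Cd c c' H, ∀ h ∈ (x.1.2 : Set (Perm ℕ)), h ≠ 1 → {y | h y = y}.Finite :=
    fun x h hh => hH h (x.2.2 h hh)
  have hd1 : ∀ h, DenseBelow (D1 h) := by
    intro h x
    refine ⟨⟨(x.1.1, insert h.1 x.1.2), x.2.1, ?_⟩, cd_le.2 ⟨Finset.subset_insert _ _,
      Relation.ReflTransGen.refl⟩, Finset.mem_insert_self _ _⟩
    intro h' hh'
    rcases Finset.mem_insert.1 hh' with rfl | hh'
    · exact h.2
    · exact x.2.2 h' hh'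
  have hd2 : ∀ n, DenseBelow (D2 n) := by
    intro n x
    obtain ⟨q, hq, y, hy⟩ := extend hc hc' x.1.2.finite_toSet (hfix x) x.1.1 x.2.1 n.2 n.1
    exact ⟨⟨(q, x.1.2), hq.good x.2.1, x.2.2⟩, cd_le.2 ⟨Finset.Subset.refl _, hq⟩, y, hy⟩
  have hd3 : ∀ w, DenseBelow (D3 w) := by
    intro w x
    let F' : Set (Perm ℕ) := (x.1.2 : Set (Perm ℕ)) ∪ {h | ∃ y ∈ w.1.2, y.2 = h}
    have hF'fin : F'.Finite := by
      refine x.1.2.finite_toSet.union ?_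
      have : {h | ∃ y ∈ w.1.2, y.2 = h} = ((w.1.2.map Prod.snd).toFinset : Set (Perm ℕ)) := by
        ext h; simp
      rw [this]; exact Finset.finite_toSet _
    have hF'H : ∀ h ∈ F', h ∈ H := by
      rintro h (hh | ⟨y, hy, rfl⟩)
      · exact x.2.2 h hh
      · exact w.2.2.2.2 y hy
    obtain ⟨q, hq, a, b, z, z', hr⟩ := task (x0 := x0) hc hc' hx1 w.1.1 w.1.2 w.2.2.1 w.2.2.2.1
      hF'fin (fun h hh => hH h (hF'H h hh)) (fun y hy => Or.inr ⟨y, hy, rfl⟩) x.1.1 x.2.1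
    exact ⟨⟨(q, x.1.2), hq.good x.2.1, x.2.2⟩, cd_le.2 ⟨Finset.Subset.refl _,
      hq.mono subset_union_left⟩, a, b, z, z', hr⟩
  obtain ⟨G, hG, hGD⟩ := hMA (Cd c c' H) (sigmaCentered_cd c c' H)
    (range D1 ∪ range D2 ∪ range D3) (by
      refine (Cardinal.mk_union_le _ _).trans_lt (Cardinal.add_lt_of_lt
        Cardinal.aleph0_le_continuum ((Cardinal.mk_union_le _ _).trans_lt (Cardinal.add_lt_of_lt
        Cardinal.aleph0_le_continuum ?_ ?_)) ?_)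
      · exact Cardinal.mk_range_le.trans_lt hHc
      · exact Cardinal.mk_range_le.trans_lt
          ((Cardinal.mk_le_aleph0 (α := ℕ × Bool)).trans_lt Cardinal.aleph0_lt_continuum)
      · exact Cardinal.mk_range_le.trans_lt (mk_words_lt H hHc)) (by
      rintro D ((⟨h, rfl⟩ | ⟨n, rfl⟩) | ⟨w, rfl⟩)
      · exact hd1 h
      · exact hd2 n
      · exact hd3 w)
  have hG1 : ∀ h ∈ H, ∃ x ∈ G, h ∈ x.1.2 := by
    intro h hh
    obtain ⟨x, hx, hxD⟩ := hGD (D1 ⟨h, hh⟩) (Or.inl (Or.inl ⟨_, rfl⟩))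
    exact ⟨x, hx, hxD⟩
  have hG2 : ∀ n e, ∃ x ∈ G, ∃ y, E (x.1.1 : Set (ℕ × ℕ)) e n y := by
    intro n e
    obtain ⟨x, hx, hxD⟩ := hGD (D2 (n, e)) (Or.inl (Or.inr ⟨_, rfl⟩))
    exact ⟨x, hx, hxD⟩
  have hG3 : ∀ w : Wd H, ∃ x ∈ G, ∃ a b z z',
      Route (x.1.1 : Set (ℕ × ℕ)) w.1.2 (w.1.1 a) z ∧
      Route (x.1.1 : Set (ℕ × ℕ)) w.1.2 (w.1.1 b) z' ∧ x0 a = x0 b ∧ x1 z ≠ x1 z' := by
    intro w
    obtain ⟨x, hx, hxD⟩ := hGD (D3 w) (Or.inr ⟨_, rfl⟩)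
    exact ⟨x, hx, hxD⟩
  let Gr : Set (ℕ × ℕ) := ⋃ x ∈ G, (x.1.1 : Set (ℕ × ℕ))
  have hGr : ∀ x ∈ G, (x.1.1 : Set (ℕ × ℕ)) ⊆ Gr := fun x hx =>
    Set.subset_biUnion_of_mem (u := fun x : Cd c c' H => (x.1.1 : Set (ℕ × ℕ))) hx
  have hcommon : ∀ z ∈ Gr, ∀ z' ∈ Gr, ∃ x ∈ G, z ∈ x.1.1 ∧ z' ∈ x.1.1 := by
    intro z hz z' hz'
    obtain ⟨x, hx, hzx⟩ := mem_iUnion₂.1 hz
    obtain ⟨x', hx', hzx'⟩ := mem_iUnion₂.1 hz'
    obtain ⟨r, hr, hr1, hr2⟩ := hG.directed x hx x' hx'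
    exact ⟨r, hr, (cd_le.1 hr1).2.subset hzx, (cd_le.1 hr2).2.subset hzx'⟩
  have htot : ∀ n, ∃ y, (n, y) ∈ Gr := by
    intro n
    obtain ⟨x, hx, y, hy⟩ := hG2 n true
    exact ⟨y, hGr x hx (by simpa [E] using hy)⟩
  have hsurj : ∀ n, ∃ y, (y, n) ∈ Gr := by
    intro n
    obtain ⟨x, hx, y, hy⟩ := hG2 n false
    exact ⟨y, hGr x hx (by simpa [E] using hy)⟩
  choose f hf using htot
  have hfun : ∀ a b, (a, b) ∈ Gr → f a = b := by
    intro a b hab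
    obtain ⟨x, hx, h1, h2⟩ := hcommon _ hab _ (hf a)
    exact x.2.1.inj1 _ _ _ h2 h1
  have hbij : Function.Bijective f := by
    constructor
    · intro a a' haa
      obtain ⟨x, hx, h1, h2⟩ := hcommon _ (hf a) _ (hf a')
      rw [← haa] at h2
      exact x.2.1.inj2 _ _ _ h1 h2
    · intro b
      obtain ⟨a, ha⟩ := hsurj b
      exact ⟨a, hfun _ _ ha⟩
  let g : Perm ℕ := Equiv.ofBijective f hbij
  have hgGr : Graph g = Gr := by
    ext ⟨a, b⟩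
    constructor
    · intro h
      have h' : f a = b := h
      rw [← h']
      exact hf a
    · intro h
      exact hfun _ _ h
  refine ⟨g, ?_, ?_, ?_⟩
  · intro n
    obtain ⟨x, hx, hm⟩ := mem_iUnion₂.1 (hf n)
    exact x.2.1.col _ _ hm
  · intro F0 hF0 hF0H
    have hx : ∃ x ∈ G, ∀ h ∈ F0, h ∈ x.1.2 := by
      induction F0, hF0 using Set.Finite.induction_on with
      | empty =>
        obtain ⟨x, hx⟩ := hG.nonempty
        exact ⟨x, hx, by simp⟩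
      | @insert a s _ _ ih =>
        obtain ⟨x, hx, hxs⟩ := ih fun h hh => hF0H (Or.inr hh)
        obtain ⟨y, hy, hya⟩ := hG1 a (hF0H (Or.inl rfl))
        obtain ⟨r, hr, hr1, hr2⟩ := hG.directed x hx y hy
        refine ⟨r, hr, fun h hh => ?_⟩
        rcases hh with rfl | hh
        · exact (cd_le.1 hr2).1 hya
        · exact (cd_le.1 hr1).1 (hxs h hh)
    obtain ⟨x, hx, hxF⟩ := hx
    refine ⟨x.1.1, fun S hS => ?_⟩
    rw [hgGr] at hS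
    obtain ⟨y, hy, hyS⟩ : ∃ y ∈ G, S ⊆ y.1.1 := by
      induction S using Finset.induction_on with
      | empty =>
        exact ⟨x, hx, Finset.empty_subset _⟩
      | insert a S ha ih =>
        rw [Finset.coe_insert, Set.insert_subset_iff] at hS
        obtain ⟨y, hy, hyS⟩ := ih hS.2
        obtain ⟨y', hy', hya⟩ := mem_iUnion₂.1 hS.1
        obtain ⟨r, hr, hr1, hr2⟩ := hG.directed y hy y' hy'
        exact ⟨r, hr, Finset.insert_subset_iff.2 ⟨(cd_le.1 hr2).2.subset hya,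
          hyS.trans (cd_le.1 hr1).2.subset⟩⟩
    obtain ⟨r, hr, hr1, hr2⟩ := hG.directed x hx y hy
    exact ⟨r.1.1, (cd_le.1 hr1).2.mono (fun h hh => hxF h hh), hyS.trans (cd_le.1 hr2).2.subset⟩
  · intro L h0 hh0 hL hred hLH
    obtain ⟨x, hx, a, b, z, z', hr1, hr2, hab, hzz⟩ := hG3 ⟨(h0, L), hh0, hL, hred, hLH⟩
    have hle : (x.1.1 : Set (ℕ × ℕ)) ⊆ Graph g := by
      rw [hgGr]
      exact hGr x hx
    have h1 := route_graph L _ _ (hr1.mono hle)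
    have h2 := route_graph L _ _ (hr2.mono hle)
    refine ⟨a, b, hab, ?_⟩
    simp only [Perm.mul_apply]
    rw [h1, h2]
    exact hzz

theorem one_step' (hMA : MASigmaCentered) {c c' : ℕ → Fin k}
    (hc : ∀ j, {x | c x = j}.Infinite)
    (hc' : ∀ j, {x | c' x = j}.Infinite) {x0 x1 : ℕ → Fin (k + 1)}
    (hx1 : ∀ j, {x | x1 x = j}.Infinite) (H : Subgroup (Perm ℕ))
    (hHc : #H < 𝔠) (hH : Nice x0 x1 H) :
    ∃ g : Perm ℕ, (∀ n, c' (g n) = c n) ∧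
      Nice x0 x1 (Subgroup.closure ((H : Set (Perm ℕ)) ∪ {g})) := by
  obtain ⟨g, hg1, hg2, hg3⟩ := exists_g' hMA (x0 := x0) hc hc' hx1 H hHc hH.1
  refine ⟨g, hg1, ?_, ?_⟩
  · intro f hf hf1
    obtain ⟨L, h0, hh0, hL, hred, rfl⟩ := exists_rep hf
    exact fix_finite hg2 hH.1 L.length L h0 rfl hh0 hL hred hf1
  · intro f hf
    obtain ⟨L, h0, hh0, hL, hred, rfl⟩ := exists_rep hf
    rcases L with _ | ⟨x, L⟩
    · simp only [ev, one_mul]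
      exact hH.2 h0 hh0
    · exact hg3 _ h0 hh0 (by simp) hred hL

end Pool.Agent.Y302.PS
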